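import Mathlib
import Pool.Agent.KS6_99.FD.Config

/-!
# Finitely dependent Markov random fields have invariant configurations in their supports

Let `φ` be an automorphism of a locally finite graph. For every finitely dependent Markov random
field with finitely many values whose law is invariant under `φ` there is a `φ`-invariant
configuration all of whose patterns on finite sets of vertices with infinite `φ`-orbits have
positive probability. On `ℤ^d` and for a translation this is a periodic configuration of the
support, so a field which is invariant under a unit translation is not a proper colouring, and the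
question has a negative answer for all `d ≥ 1` and all `q`.

Idea of the proof: let `W` be a finite set of vertices with infinite orbits, and let `B` be the set
of the vertices at distance less than `k` (the range of dependence) from `W`. All the vertices of
`B` have infinite orbits, so far translates `φ^m B`, `φ^n B` are disjoint and not adjacent. Take the
tube of the translates `φ^n B`, `1 ≤ n ≤ M`, without the translates with `n ≤ 0`: its boundary
consists of a part at distance at least `k` from all the `φ^n W`, `n ≤ M`, on which the values can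
be fixed without changing the law of the patterns on the `φ^n W`, and of a part in a finite set
which does not depend on `M`. So the matrix `P(uv)`, `u`, `v` words of patterns, has finite rank. On
the space of its rows the sum of the operators of reading one pattern is a projection of rank one
up to a nilpotent operator, and so one of these operators is not nilpotent.
-/

set_option autoImplicit false

namespace Pool.Agent.Results.MP_83a7f3_pr.InvariantConfigurations

open MeasureTheory ProbabilityTheory Pool.Agent.KS6_99.FD

/-- The Cayley graph of a group: `g` and `h ≠ g` are adjacent when `h` is `g s` or `g s⁻¹` with `s`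
in the set `S`. -/
def cay {Γ : Type} [Group Γ] (S : Set Γ) : SimpleGraph Γ :=
  SimpleGraph.fromRel fun g h => g⁻¹ * h ∈ S

theorem lat_locFin (d : ℕ) : LocFin (lat d) := by
  intro v
  refine (Set.finite_Icc (v - 1) (v + 1)).subset fun u hu => ?_
  have h1 : ∑ i, (v i - u i) ^ 2 = 1 := hu
  have h2 : ∀ i, |v i - u i| ≤ 1 := by
    intro i
    have h3 : (v i - u i) ^ 2 ≤ ∑ i, (v i - u i) ^ 2 :=
      Finset.single_le_sum (f := fun i => (v i - u i) ^ 2) (fun i _ => sq_nonneg _)
        (Finset.mem_univ i)
    rw [h1] at h3
    exact (sq_le_one_iff_abs_le_one _).1 h3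
  constructor
  · intro i
    have := abs_le.1 (h2 i)
    show v i - 1 ≤ u i
    linarith
  · intro i
    have := abs_le.1 (h2 i)
    show u i ≤ v i + 1
    linarith

theorem lat_aut (d : ℕ) (t : Fin d → ℤ) : Aut (lat d) (Equiv.addRight t) := by
  intro u v
  show ∑ i, ((u + t) i - (v + t) i) ^ 2 = 1 ↔ ∑ i, (u i - v i) ^ 2 = 1
  have : ∀ i, (u + t) i - (v + t) i = u i - v i := by
    intro i
    simp
  simp_rw [this]

theorem free_add {d : ℕ} {t : Fin d → ℤ} (ht : t ≠ 0) (v : Fin d → ℤ) :
    Free (Equiv.addRight t) v := by
  intro n hn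
  rw [Equiv.zsmul_addRight] at hn
  have h1 : v + n • t = v := hn
  have h2 : n • t = 0 := by simpa using h1
  by_contra h0
  apply ht
  funext i
  have h3 := congrFun h2 i
  simp only [Pi.smul_apply, smul_eq_mul, Pi.zero_apply, mul_eq_zero] at h3
  exact h3.resolve_left h0

theorem cay_locFin {Γ : Type} [Group Γ] {S : Set Γ} (hS : S.Finite) : LocFin (cay S) := by
  intro g
  refine ((hS.image fun s => g * s).union (hS.image fun s => g * s⁻¹)).subset fun h hh => ?_
  have h1 : (cay S).Adj g h := hh
  rw [cay, SimpleGraph.fromRel_adj] at h1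
  rcases h1.2 with h2 | h2
  · exact Or.inl ⟨_, h2, by group⟩
  · exact Or.inr ⟨_, h2, by group⟩

theorem cay_aut {Γ : Type} [Group Γ] (S : Set Γ) (a : Γ) : Aut (cay S) (Equiv.mulLeft a) := by
  intro g h
  rw [cay, SimpleGraph.fromRel_adj, SimpleGraph.fromRel_adj]
  show a * g ≠ a * h ∧ ((a * g)⁻¹ * (a * h) ∈ S ∨ (a * h)⁻¹ * (a * g) ∈ S) ↔ _
  have h1 : (a * g)⁻¹ * (a * h) = g⁻¹ * h := by group
  have h2 : (a * h)⁻¹ * (a * g) = h⁻¹ * g := by group
  rw [h1, h2, Ne, mul_right_inj]

theorem free_mul {Γ : Type} [Group Γ] {s : Γ} (hs : ∀ n : ℕ, s ^ n = 1 → n = 0) (g : Γ) :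
    Free (Equiv.mulLeft s) g := by
  intro n hn
  rw [Equiv.zpow_mulLeft] at hn
  have h1 : s ^ n * g = g := hn
  have h2 : s ^ n = 1 := by simpa using h1
  obtain ⟨m, rfl | rfl⟩ := n.eq_nat_or_neg
  · rw [zpow_natCast] at h2
    rw [hs m h2]
    rfl
  · rw [zpow_neg, inv_eq_one, zpow_natCast] at h2
    rw [hs m h2]
    rfl

/-- (1) For all `d ≥ 1` and all `q` there is no shift-invariant, finitely dependent Markov random
field on `ℤ^d` which is supported on proper `q`-colourings.
(2) Let `P` be the law of a field on a countable or uncountable set `V` of vertices with values in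
a finite set. Let `φ` be an automorphism of two locally finite graphs `G` and `H` on `V`, and let
`P` be invariant under `φ`, finitely dependent for the graph distance of `G` and a Markov random
field for `H`. Then there is a `φ`-invariant configuration `p` such that for every finite set `W`
of vertices with infinite `φ`-orbits the pattern of `p` on `W` has positive probability.
(3) In this case `x v = x (φ^n v)` has positive probability for every vertex `v` with an infinite
orbit and for every `n`.
(4) On `ℤ^d`: the support of every such field which is invariant under the translation by a vector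
`t ≠ 0` contains a configuration of period `t`, where `H` may be any locally finite graph on `ℤ^d`
which is invariant under the translation by `t`.
(5) On the Cayley graph of a group with respect to a finite set `S` which has an element `s` of
infinite order: for a finitely dependent Markov random field which is invariant under the left
multiplication by `s` the values at the adjacent vertices `1` and `s` are equal with positive
probability. -/
theorem result :
    (∀ d q : ℕ, 1 ≤ d → ¬ ∃ P : Measure ((Fin d → ℤ) → Fin q), IsProbabilityMeasure P ∧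
      (∀ t : Fin d → ℤ, Inv P (Equiv.addRight t)) ∧ FinDep (lat d) P ∧ Markov (lat d) P ∧
      ∀ x ∈ Supp P, Proper (lat d) x) ∧
    (∀ (V : Type) (q : ℕ) (G H : SimpleGraph V) (φ : Equiv.Perm V) (P : Measure (V → Fin q)),
      LocFin G → LocFin H → Aut G φ → Aut H φ → IsProbabilityMeasure P → Inv P φ →
      FinDep G P → Markov H P →
      (∃ p : V → Fin q, (∀ v, p (φ v) = p v) ∧
        ∀ W : Finset V, (∀ w ∈ W, Free φ w) → 0 < P {x | ∀ w ∈ W, x w = p w}) ∧
      ∀ v, Free φ v → ∀ n : ℤ, 0 < P {x | x v = x ((φ ^ n) v)}) ∧
    (∀ (d q : ℕ) (H : SimpleGraph (Fin d → ℤ)) (P : Measure ((Fin d → ℤ) → Fin q))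
      (t : Fin d → ℤ), t ≠ 0 → LocFin H → Aut H (Equiv.addRight t) → IsProbabilityMeasure P →
      Inv P (Equiv.addRight t) → FinDep (lat d) P → Markov H P →
      ∃ x ∈ Supp P, ∀ v, x (v + t) = x v) ∧
    (∀ (Γ : Type) [Group Γ] (S : Set Γ) (s : Γ) (q : ℕ) (P : Measure (Γ → Fin q)), S.Finite →
      s ∈ S → (∀ n : ℕ, s ^ n = 1 → n = 0) → IsProbabilityMeasure P →
      Inv P (Equiv.mulLeft s) → FinDep (cay S) P → Markov (cay S) P →
      (cay S).Adj 1 s ∧ 0 < P {x | x 1 = x s}) := by
  have h2 : ∀ (V : Type) (q : ℕ) (G H : SimpleGraph V) (φ : Equiv.Perm V)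
      (P : Measure (V → Fin q)), LocFin G → LocFin H → Aut G φ → Aut H φ →
      IsProbabilityMeasure P → Inv P φ → FinDep G P → Markov H P →
      (∃ p : V → Fin q, (∀ v, p (φ v) = p v) ∧
        ∀ W : Finset V, (∀ w ∈ W, Free φ w) → 0 < P {x | ∀ w ∈ W, x w = p w}) ∧
      ∀ v, Free φ v → ∀ n : ℤ, 0 < P {x | x v = x ((φ ^ n) v)} := by
    classical
    intro V q G H φ P hG hH hAG hAH hPr hI hF hM
    obtain ⟨p, hp, hpW⟩ := invariant_config hG hH hAG hAH hI hF hM
    refine ⟨⟨p, hp, hpW⟩, fun v hv n => ?_⟩
    have hpn : p ((φ ^ n) v) = p v := by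
      induction n using Int.induction_on with
      | zero => simp
      | succ m ih => rw [add_comm, zpow_add, zpow_one, Equiv.Perm.mul_apply, hp, ih]
      | pred m ih =>
        rw [← hp, ← Equiv.Perm.mul_apply, ← zpow_one_add]
        have : 1 + (-(m : ℤ) - 1) = -(m : ℤ) := by ring
        rw [this, ih]
    have hfn : Free φ ((φ ^ n) v) := by
      intro m hm
      rw [zpow_cancel] at hm
      have := hv.inj hm
      omega
    refine lt_of_lt_of_le (hpW {v, (φ ^ n) v} ?_) (measure_mono ?_)
    · intro w hw
      rcases Finset.mem_insert.1 hw with rfl | h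
      · exact hv
      · rw [Finset.mem_singleton.1 h]
        exact hfn
    · intro x hx
      have e1 := hx v (by simp)
      have e2 := hx ((φ ^ n) v) (by simp)
      show x v = x ((φ ^ n) v)
      rw [e1, e2, hpn]
  have h3 : ∀ (d q : ℕ) (H : SimpleGraph (Fin d → ℤ)) (P : Measure ((Fin d → ℤ) → Fin q))
      (t : Fin d → ℤ), t ≠ 0 → LocFin H → Aut H (Equiv.addRight t) → IsProbabilityMeasure P →
      Inv P (Equiv.addRight t) → FinDep (lat d) P → Markov H P →
      ∃ x ∈ Supp P, ∀ v, x (v + t) = x v := by
    intro d q H P t ht hH hAH hPr hI hF hM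
    obtain ⟨p, hp, hpW⟩ := (h2 _ q (lat d) H (Equiv.addRight t) P (lat_locFin d) hH (lat_aut d t)
      hAH hPr hI hF hM).1
    exact ⟨p, fun W => hpW W fun w _ => free_add ht w, hp⟩
  refine ⟨?_, h2, h3, ?_⟩
  · rintro d q hd ⟨P, hPr, hI, hF, hM, hS⟩
    set i : Fin d := ⟨0, hd⟩ with hi
    have ht : (Pi.single i 1 : Fin d → ℤ) ≠ 0 := by
      intro h
      have := congrFun h i
      simp at this
    obtain ⟨x, hx, hx'⟩ := h3 d q (lat d) P (Pi.single i 1) ht (lat_locFin d) (lat_aut d _) hPr
      (hI _) hF hM
    have h4 := hS x hx (0 + Pi.single i 1) 0 ?_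
    · exact h4 (hx' 0)
    · show ∑ j, ((0 + Pi.single i 1 : Fin d → ℤ) j - (0 : Fin d → ℤ) j) ^ 2 = 1
      rw [Finset.sum_eq_single i]
      · simp
      · intro j _ hj
        simp [hj]
      · intro h
        exact absurd (Finset.mem_univ _) h
  · intro Γ _ S s q P hS hs hinf hPr hI hF hM
    have hs1 : s ≠ 1 := by
      intro h
      have := hinf 1 (by rw [h, one_pow])
      exact one_ne_zero this
    refine ⟨?_, ?_⟩
    · rw [cay, SimpleGraph.fromRel_adj]
      exact ⟨hs1.symm, Or.inl (by simpa using hs)⟩
    · have h4 := (h2 Γ q (cay S) (cay S) (Equiv.mulLeft s) P (cay_locFin hS) (cay_locFin hS)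
        (cay_aut S s) (cay_aut S s) hPr hI hF hM).2 1 (free_mul hinf 1) 1
      simpa using h4

end Pool.Agent.Results.MP_83a7f3_pr.InvariantConfigurations
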